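import Pool.Agent.U918.LP.Slopes

/-!
# `p_n + 2 P(n)` prime for the linear polynomials `P(x) = c x + h`: almost all `h`, ALL `c` at once, arbitrary weights

`p_n` is the `n`-th prime. For every slope `c ≥ 0` (`c = 0`: constant polynomials) let `w_c` be ANY bounded real weight on
the integers `n ≥ 1`, for example the indicator of an arbitrary set. For all but a share `log ^ (-U) X` of the vectors
`(h₁, …, h_r)` of integers `1 ≤ h_i ≤ B X`, one has for ALL slopes `c ≥ 0` simultaneously: the sum of `w_c n` over the `n`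
with `p_n + 2 c n ≤ y` for which all the numbers `p_n + 2 P_i(n)`, `P_i(x) = c x + h_i`, are prime is the sum of
`w_c n ∏ 1 / (V z log (p_n + 2 P_i(n)))` over those `n` for which all these numbers are free of primes `≤ z`, up to an
error `X / log ^ D X`; here `z` is a power of `log X`, `V z = ∏_{l ≤ z} (1 - 1/l)`, and this holds simultaneously for
all `y ≤ X` and all residue classes of `p_n + 2 c n` to all moduli up to `log ^ K X`.
-/

set_option autoImplicit false

open Finset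

namespace Pool.Agent.Results.MP_3aaefc_nt.ArbitraryWeights

/-- the product of `1 - 1/l` over the primes `l ≤ z` -/
noncomputable def V (z : ℕ) : ℝ := ∏ l ∈ (Icc 1 z).filter Nat.Prime, (1 - 1 / (l : ℝ))

/-- the `n`-th prime -/
noncomputable def p (n : ℕ) : ℕ := Nat.nth Nat.Prime (n - 1)

/-- the number `p_n + 2 c n` -/
noncomputable def u (c n : ℕ) : ℕ := p n + 2 * c * n

open Classical in
/-- the sum of `w n` over the `n ≥ 1` with `u c n ≤ y`, `u c n ≡ a mod q`, for which all the numbers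
`p_n + 2 (c n + h i)` are prime (here `n ≤ u c n`) -/
noncomputable def primeSum {r : ℕ} (c : ℕ) (w : ℕ → ℝ) (h : Fin r → ℕ) (q a y : ℕ) : ℝ :=
  ∑ n ∈ (Icc 1 y).filter (fun n => u c n ≤ y ∧ u c n ≡ a [MOD q] ∧ ∀ i, (u c n + 2 * h i).Prime), w n

open Classical in
/-- the sum of `w n / ∏ (V z · log (p_n + 2 (c n + h i)))` over the `n ≥ 1` with `u c n ≤ y`, `u c n ≡ a mod q`, for which
no prime `l ≤ z` divides any of the numbers `p_n + 2 (c n + h i)` -/
noncomputable def modelSum {r : ℕ} (c z : ℕ) (w : ℕ → ℝ) (h : Fin r → ℕ) (q a y : ℕ) : ℝ :=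
  ∑ n ∈ (Icc 1 y).filter (fun n => u c n ≤ y ∧ u c n ≡ a [MOD q] ∧
    ∀ i, ∀ l : ℕ, l.Prime → l ≤ z → ¬ l ∣ u c n + 2 * h i),
    w n * ∏ i, (V z * Real.log ((u c n + 2 * h i : ℕ) : ℝ))⁻¹

open Classical in
/-- **The theorem.** For all `r`, `B`, `U`, `D`, `K` there is `B₀` such that for every `E`, every large `X`, every
integer `z` with `log ^ B₀ X ≤ z ≤ log ^ E X` and EVERY family of weights `w c` with `|w c n| ≤ 1`: for all but at most
`X ^ r / log ^ U X` of the vectors `h` of integers `1 ≤ h i ≤ B X`, one has for ALL `c ≥ 0`, all `y ≤ X`, all moduli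
`1 ≤ q ≤ log ^ K X` and all classes `a` that `primeSum c (w c) h q a y` and `modelSum c z (w c) h q a y` differ by at most
`X / log ^ D X`. -/
theorem result (r B U D K : ℕ) :
    ∃ B₀ : ℕ, ∀ E : ℕ, ∃ X₀ : ℕ, ∀ X : ℕ, X₀ ≤ X → ∀ z : ℕ, Real.log X ^ B₀ ≤ z → (z : ℝ) ≤ Real.log X ^ E →
    ∀ w : ℕ → ℕ → ℝ, (∀ c n, |w c n| ≤ 1) →
    (((Fintype.piFinset (fun _ : Fin r => Icc 1 (B * X))).filter (fun h =>
      ∃ c : ℕ, ∃ y ≤ X, ∃ q a : ℕ, 1 ≤ q ∧ (q : ℝ) ≤ Real.log X ^ K ∧
        (X : ℝ) / Real.log X ^ D < |primeSum c (w c) h q a y - modelSum c z (w c) h q a y|)).card : ℝ) ≤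
      (X : ℝ) ^ r / Real.log X ^ U :=
  Pool.Agent.U918.LP.all_slopes r B U D K

end Pool.Agent.Results.MP_3aaefc_nt.ArbitraryWeights
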