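import Pool.Agent.U847.XG
import Pool.Agent.U847.XW
import Pool.Agent.N625.PT.X13
import Pool.Agent.Y877.SxI

/-!
# The number of all `n ≤ x` with `p_n + 2 (a n + N)` prime, for almost all slopes `a` and almost all multiples `N` of the
integers whose digits label walks in infinite graphs

The linear polynomials `P(n) = a n + N` with `N = h M (c + κ v)`, where `M` is the product of the primes `≤ y` and `v` runs
over the integers whose `k` digits are the labels of the walks between two vertices of a graph, for example of the Cayley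
graph of a group: then these are the integers whose digits spell a given element of the group. Such a set can contain as few
as `N ^ ε` integers below `N`, and in general it is not automatic.

From Mathlib: `Nat.nth Nat.Prime`: the sequence of the primes; `primorial y`: the product of the primes `≤ y`;
`Finset.Icc 1 x`: the integers from `1` to `x`; `s ×ˢ t`: the product of two finite sets.

Method: the exponential sum over the walks is dominated by the iterates of the adjacency operator of the graph, which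
loses a constant factor at every digit where the frequency is not extremal (starting files, `Pool.Agent.N625.GW`). New here:
this decay is exponential in the number of these digits for all the fractions with a denominator free of small primes
(`Pool.Agent.U847.XC`), it gives the sieve with error terms smaller than all powers of `k` (`Pool.Agent.U847.XD`) and the
second moment and the number of primes in random translates of a dense sequence (`Pool.Agent.U847.XG`). The proofs of these
steps are those of the starting files `Pool.Agent.N625.PT.X2` - `X11` (integers with exchangeable blocks of digits), with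
the class of distributions replaced.
-/

set_option autoImplicit false

namespace Pool.Agent.Results.MP_3aaefc_nt.WalkLinearPolynomials

open Finset

/-- The digits `a < b` act on the set `X` of the vertices: an edge with the label `a` leads from `x` to `y` if
`δ x a = some y` (at most one edge with the label `a` starts at `x`). The number of the edges from `x` to `y` equals the
number of the edges from `y` to `x`, and at least two edges start at every vertex. The graph may be infinite. -/
structure Graph {X : Type} (b : ℕ) (δ : X → ℕ → Option X) : Prop where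
  symm : ∀ x y : X, {a : ℕ | a < b ∧ δ x a = some y}.ncard = {a : ℕ | a < b ∧ δ y a = some x}.ncard
  two : ∀ x : X, ∃ a a' : ℕ, a < a' ∧ a' < b ∧ (δ x a).isSome ∧ (δ x a').isSome

open Classical in
/-- The integers `v < b ^ k` whose `k` digits in base `b`, from the most significant to the least significant one (the
digit number `i`, `0 ≤ i < k`, from the left is `v / b ^ (k - 1 - i) % b`), are the labels of a walk from `x` to `y`. -/
noncomputable def walks {X : Type} (b : ℕ) (δ : X → ℕ → Option X) (k : ℕ) (x y : X) : Finset ℕ :=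
  (range (b ^ k)).filter fun v =>
    ((List.range k).map fun i => v / b ^ (k - 1 - i) % b).foldl (fun s a => s.bind fun z => δ z a) (some x) = some y

/-- the `n`-th prime, `n ≥ 1` -/
noncomputable def p (n : ℕ) : ℕ := Nat.nth Nat.Prime (n - 1)

/-- the product of `1 - 1/q` over the primes `q ≤ y` -/
noncomputable def V (y : ℕ) : ℝ := ∏ q ∈ (Icc 1 y).filter Nat.Prime, (1 - 1 / (q : ℝ))

/-- the multiple of the product of the primes `≤ y` given by the integers `h` and `c + κ v` -/
def Nv (y h : ℕ) (c κ : ℤ) (v : ℕ) : ℤ := ((primorial y * h : ℕ) : ℤ) * (c + κ * v)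

/-- the `1 ≤ i ≤ x` such that `p_i + 2 P(i)` is prime, for the linear polynomial `P(i) = a i + n` -/
noncomputable def Good (a x : ℕ) (n : ℤ) : Finset ℕ := (Icc 1 x).filter (fun i : ℕ => ((p i : ℤ) + 2 * (a * i + n)).toNat.Prime)

/-- the `1 ≤ i ≤ x` such that `p_i + 2 a i` is prime to `D` -/
noncomputable def Adm (a D x : ℕ) : Finset ℕ := (Icc 1 x).filter (fun i : ℕ => (p i + 2 * a * i).Coprime D)

lemma p_lt (n : ℕ) (hn : 1 ≤ n) : n < p n := by
  unfold p
  have := Nat.add_two_le_nth_prime (n - 1)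
  omega

lemma p_prime (n : ℕ) : (p n).Prime := Nat.prime_nth_prime _

lemma f_inj (a : ℕ) {m n : ℕ} (hm : 1 ≤ m) (hn : 1 ≤ n) (h : p m + 2 * a * m = p n + 2 * a * n) : m = n := by
  rcases lt_trichotomy m n with hlt | heq | hlt
  · exfalso
    have h1 : p m < p n := Nat.nth_strictMono Nat.infinite_setOf_prime (by omega)
    have h2 : 2 * a * m ≤ 2 * a * n := Nat.mul_le_mul_left _ hlt.le
    omega
  · exact heq
  · exfalso
    have h1 : p n < p m := Nat.nth_strictMono Nat.infinite_setOf_prime (by omega)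
    have h2 : 2 * a * n ≤ 2 * a * m := Nat.mul_le_mul_left _ hlt.le
    omega

lemma mult_adm (a D n : ℕ) (hn : 1 ≤ n) (hD : D ∣ n) : (p n + 2 * a * n).Coprime D := by
  by_contra hcop
  obtain ⟨q, hqp, hqa, hqb⟩ := Nat.Prime.not_coprime_iff_dvd.1 hcop
  have h1 : q ∣ n := hqb.trans hD
  have h2 : q ∣ p n := (Nat.dvd_add_left (h1.mul_left (2 * a))).1 hqa
  have h3 : q = p n := (Nat.prime_dvd_prime_iff_eq hqp (p_prime n)).1 h2
  have h4 := Nat.le_of_dvd (by omega) h1
  have h5 := p_lt n hn
  omega

lemma adm_card (a D x : ℕ) : x / D ≤ (Adm a D x).card := by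
  rw [← Nat.Ioc_filter_dvd_card_eq_div x D]
  apply card_le_card
  intro n hn
  rw [mem_filter, mem_Ioc] at hn
  unfold Adm
  rw [mem_filter, mem_Icc]
  exact ⟨⟨by omega, hn.1.2⟩, mult_adm a D n (by omega) hn.2⟩

set_option maxHeartbeats 2000000 in
open Classical in
/-- the law for a class of distributions -/
theorem main (b q₀ : ℕ) (hb : 2 ≤ b) (Cl : ℕ → (ℕ → ℝ) → Prop) (hC : Pool.Agent.U847.XP.SCls b q₀ Cl) : ∀ κ : ℤ, κ ≠ 0 →
    ∀ (B J C K₁ : ℕ) (θ : ℝ), 0 < θ → ∀ ε : ℝ, 0 < ε → ε ≤ 1 → ∃ k₀ : ℕ, ∀ k : ℕ, k₀ ≤ k →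
    ∀ μ : ℕ → ℝ, Cl k μ → ∀ y : ℕ, θ * Real.log k ≤ y → y ≤ K₁ * Real.log k →
    ∀ c : ℤ, |c| ≤ B * (b : ℤ) ^ k → ∀ A H : ℕ, A ≤ k ^ J → H ≤ k ^ J →
    ∀ x : ℕ, b ^ k ≤ x * k ^ C → x ≤ b ^ k * k ^ C →
      (∀ a h : ℕ, x / (primorial y * h) ≤ (Adm a (primorial y * h) x).card) ∧
      ∑ v ∈ range (b ^ k), (if (((range (A + 1) ×ˢ Icc 1 H).filter (fun z => ¬ (0 < Nv y z.2 c κ v →
          |((Good z.1 x (Nv y z.2 c κ v)).card : ℝ) - (Adm z.1 (primorial y * z.2) x).card / (V y * (k * Real.log b))| ≤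
            ε * ((Adm z.1 (primorial y * z.2) x).card / (V y * (k * Real.log b)))))).card : ℝ) ≤ ε * ((A + 1) * H)
        then 0 else μ v) ≤ ε := by
  classical
  intro κ hκ B J C K₁ θ hθ ε hε hε1
  have hε2 : ε ^ 2 ≤ ε := by nlinarith
  obtain ⟨k₀, h0⟩ := Pool.Agent.U847.XP.law2 b q₀ hb Cl hC (2 * κ) (mul_ne_zero two_ne_zero hκ) (2 * B) J
    (2 * K₁ + 2 * J + 6) (C + J + 5) K₁ θ hθ (ε ^ 2) (by positivity) (hε2.trans hε1)
  obtain ⟨k₁, h1⟩ := Pool.Agent.N625.PT.X_large b C hb
  obtain ⟨k₂, h2⟩ := Pool.Agent.N625.PT.log_X b C hb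
  obtain ⟨k₃, h3⟩ := Pool.Agent.N625.PT.pow_le_pow_digits b hb (2 * K₁ + J + C)
  obtain ⟨n4, hn4⟩ := Pool.Agent.Y877.SX.nth_le_log
  refine ⟨max (max k₀ k₁) (max (max k₂ k₃) (max 5 n4)), fun k hk μ hμ y hy1 hy2 c hc A H hA hH x hx1 hx2 =>
    ⟨fun a h => adm_card a _ x, ?_⟩⟩
  have b4 : 5 ≤ k := by omega
  have hkr : (5 : ℝ) ≤ k := by exact_mod_cast b4
  have hk0 : (0 : ℝ) < k := by linarith
  have hkx := h1 k (by omega) x hx1
  have hlx := h2 k (by omega) x hx2
  have hk3 := h3 k (by omega)
  have hln : 0 ≤ Real.log x := Real.log_natCast_nonneg x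
  have hx0 : (0 : ℝ) ≤ x := Nat.cast_nonneg x
  have hbigx : k ^ (2 * K₁ + J) ≤ x := by
    have : k ^ (2 * K₁ + J) * k ^ C ≤ x * k ^ C := by
      rw [← pow_add]
      exact hk3.trans hx1
    exact Nat.le_of_mul_le_mul_right this (by positivity)
  have hX1 : b ^ k ≤ (x * k ^ (J + 5)) * k ^ (C + J + 5) := by
    refine hx1.trans ?_
    rw [mul_assoc, ← pow_add]
    exact Nat.mul_le_mul_left _ (Nat.pow_le_pow_right (by omega) (by omega))
  have hX2 : x * k ^ (J + 5) ≤ b ^ k * k ^ (C + J + 5) := by
    calc x * k ^ (J + 5) ≤ (b ^ k * k ^ C) * k ^ (J + 5) := Nat.mul_le_mul_right _ hx2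
      _ = _ := by rw [mul_assoc, ← pow_add, add_assoc]
  have hp : ∀ n : ℕ, n ≤ x → p n ≤ x * k ^ 4 := by
    intro n hn
    have g1 : ((p n : ℕ) : ℝ) ≤ x * (k : ℝ) ^ 4 := by
      refine (hn4 x (by omega) (n - 1) (by omega)).trans ?_
      apply mul_le_mul_of_nonneg_left _ hx0
      calc Real.log x ^ 2 ≤ ((k : ℝ) ^ 2) ^ 2 := pow_le_pow_left₀ hln hlx _
        _ = (k : ℝ) ^ 4 := by rw [← pow_mul]
    exact_mod_cast g1
  have hf : ∀ a n : ℕ, a ≤ A → n ≤ x → p n + 2 * a * n ≤ x * k ^ (J + 5) := by
    intro a n ha hn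
    have g1 : 2 * a * n ≤ 2 * k ^ J * x := Nat.mul_le_mul (Nat.mul_le_mul_left 2 (ha.trans hA)) hn
    have g2 := hp n hn
    have g3 : k ^ 4 + 2 * k ^ J ≤ k ^ (J + 5) := by
      have e1 : 1 ≤ k ^ J := Nat.one_le_pow _ _ (by omega)
      have e2 : 1 ≤ k ^ 4 := Nat.one_le_pow _ _ (by omega)
      have e3 : k ^ (J + 5) = k ^ J * (k ^ 4 * k) := by ring
      rw [e3]
      calc k ^ 4 + 2 * k ^ J ≤ k ^ J * k ^ 4 + 2 * (k ^ J * k ^ 4) := by nlinarith
        _ = k ^ J * (k ^ 4 * 3) := by ring
        _ ≤ _ := Nat.mul_le_mul_left _ (Nat.mul_le_mul_left _ (by omega))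
    calc p n + 2 * a * n ≤ x * k ^ 4 + 2 * k ^ J * x := by omega
      _ = x * (k ^ 4 + 2 * k ^ J) := by ring
      _ ≤ _ := Nat.mul_le_mul_left _ g3
  obtain ⟨Bd, hBd⟩ : ∃ Bd : ℕ × ℕ → ℕ → Prop, ∀ z v, Bd z v ↔ (0 < Nv y z.2 c κ v ∧
    ε * ((Adm z.1 (primorial y * z.2) x).card / (V y * (k * Real.log b))) <
    |((Good z.1 x (Nv y z.2 c κ v)).card : ℝ) - (Adm z.1 (primorial y * z.2) x).card / (V y * (k * Real.log b))|) := ⟨_, fun _ _ => Iff.rfl⟩
  have hVy : 0 < V y := Pool.Agent.H373R2.T7.Vz_pos y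
  have hlogb : 0 ≤ Real.log b := Real.log_natCast_nonneg b
  have key : ∀ z ∈ range (A + 1) ×ˢ Icc 1 H, ∑ v ∈ range (b ^ k), (if Bd z v then μ v else 0) ≤ ε ^ 2 := by
    intro z hz
    obtain ⟨a, h⟩ := z
    rw [mem_product, mem_range, mem_Icc] at hz
    obtain ⟨haA, hh1, hhH⟩ := hz
    simp only at haA hh1 hhH
    have haA' : a ≤ A := by omega
    obtain ⟨D, hD⟩ : ∃ D, D = primorial y * h := ⟨_, rfl⟩
    have hD1 : 1 ≤ D := by rw [hD]; exact Nat.mul_pos (primorial_pos y) hh1
    have hDk : D ≤ k ^ (2 * K₁ + J) := by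
      rw [hD]
      exact Pool.Agent.N625.PT.mult_small K₁ J k y h (by omega) hy2 (hhH.trans hH)
    have hDx : D ≤ x := hDk.trans hbigx
    obtain ⟨S, hS⟩ : ∃ S, S = Adm a (primorial y * h) x := ⟨_, rfl⟩
    have hden : (x : ℝ) ≤ S.card * (k : ℝ) ^ (2 * K₁ + J + 1) := by
      have g1 : x / D ≤ S.card := by rw [hS, hD]; exact adm_card a _ x
      have g2 : x ≤ 2 * (x / D * D) := by
        have e1 := Nat.div_add_mod x D
        have e2 : x % D < D := Nat.mod_lt _ (by omega)
        have e3 : 1 ≤ x / D := (Nat.one_le_div_iff (by omega)).2 hDx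
        have e4 : D ≤ x / D * D := Nat.le_mul_of_pos_left _ e3
        have e5 : D * (x / D) = x / D * D := by ring
        omega
      have g3 : x ≤ S.card * k ^ (2 * K₁ + J + 1) := by
        calc x ≤ 2 * (x / D * D) := g2
          _ ≤ 2 * (S.card * k ^ (2 * K₁ + J)) := Nat.mul_le_mul_left 2 (Nat.mul_le_mul g1 hDk)
          _ = S.card * (k ^ (2 * K₁ + J) * 2) := by ring
          _ ≤ S.card * (k ^ (2 * K₁ + J) * k) := Nat.mul_le_mul_left _ (Nat.mul_le_mul_left _ (by omega))
          _ = _ := by rw [← pow_succ]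
      exact_mod_cast g3
    have hS1 : ∀ n ∈ S, 1 ≤ n ∧ n ≤ x ∧ (p n + 2 * a * n).Coprime (primorial y * h) := by
      intro n hn
      rw [hS] at hn
      unfold Adm at hn
      rw [mem_filter, mem_Icc] at hn
      exact ⟨hn.1.1, hn.1.2, hn.2⟩
    obtain ⟨S', hS'⟩ : ∃ S', S' = S.image (fun n : ℕ => p n + 2 * a * n) := ⟨_, rfl⟩
    have hinj : Set.InjOn (fun n : ℕ => p n + 2 * a * n) S := fun m hm n hn hmn =>
      f_inj a (hS1 m (by exact_mod_cast hm)).1 (hS1 n (by exact_mod_cast hn)).1 hmn
    have hcard : S'.card = S.card := by rw [hS']; exact card_image_of_injOn hinj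
    have hc2 : |2 * c| ≤ ((2 * B : ℕ) : ℤ) * (b : ℤ) ^ k := by
      rw [abs_mul]
      push_cast
      have : |(2 : ℤ)| = 2 := rfl
      rw [this]
      linarith
    have h5 := h0 k (by omega) μ hμ y hy1 hy2 (2 * c) hc2 h hh1 (hhH.trans hH) (x * k ^ (J + 5)) hX1 hX2 S' (by
        intro s hs
        rw [hS', mem_image] at hs
        obtain ⟨n, hn, rfl⟩ := hs
        have g1 := hS1 n hn
        rw [mem_Icc]
        exact ⟨by have := (p_prime n).pos; omega, hf a n haA' g1.2.1⟩) (by
        intro s hs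
        rw [hS', mem_image] at hs
        obtain ⟨n, hn, rfl⟩ := hs
        exact (hS1 n hn).2.2) (by
        rw [hcard]
        push_cast
        calc (x : ℝ) * (k : ℝ) ^ (J + 5) ≤ (S.card * (k : ℝ) ^ (2 * K₁ + J + 1)) * (k : ℝ) ^ (J + 5) :=
              mul_le_mul_of_nonneg_right hden (by positivity)
          _ = _ := by rw [mul_assoc, ← pow_add]; congr 2; omega) 1 (Or.inl rfl)
    refine le_trans (sum_le_sum fun v _ => ?_) h5
    have hpv := hC.nonneg _ _ hμ v
    by_cases hq : Bd (a, h) v
    · rw [if_pos hq, if_pos]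
      rw [hBd] at hq
      simp only at hq
      rw [← hS] at hq
      obtain ⟨q1, q2⟩ := hq
      have hNv : ((primorial y * h : ℕ) : ℤ) * (2 * c + 2 * κ * (v : ℕ)) = 2 * Nv y h c κ v := by
        unfold Nv
        ring
      refine ⟨fun s hs => ?_, ?_⟩
      · rw [hNv]
        have : (0 : ℤ) ≤ (s : ℤ) := Int.natCast_nonneg s
        linarith
      · have e1 : (S'.filter (fun s : ℕ => (((primorial y * h : ℕ) : ℤ) * (2 * c + 2 * κ * (v : ℕ)) + 1 * (s : ℕ)).toNat.Prime)).card =
            (Good a x (Nv y h c κ v)).card := by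
          rw [hS', filter_image, card_image_of_injOn (hinj.mono (by
            intro i hi
            rw [mem_coe, mem_filter] at hi
            exact_mod_cast hi.1))]
          unfold Good
          congr 1
          ext n
          rw [mem_filter, mem_filter, mem_Icc]
          have e : ∀ n : ℕ, 2 * Nv y h c κ v + 1 * ((p n + 2 * a * n : ℕ) : ℤ) = (p n : ℤ) + 2 * (a * n + Nv y h c κ v) := by
            intro n
            push_cast
            ring
          constructor
          · rintro ⟨hn, hpr⟩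
            have g1 := hS1 n hn
            rw [hNv, e n] at hpr
            exact ⟨⟨g1.1, g1.2.1⟩, hpr⟩
          · rintro ⟨⟨g1, g2⟩, g4⟩
            have hnS : n ∈ S := by
              rw [hS]
              unfold Adm
              rw [mem_filter, mem_Icc]
              refine ⟨⟨g1, g2⟩, ?_⟩
              by_contra hcop
              obtain ⟨q, hqp, hqa, hqb⟩ := Nat.Prime.not_coprime_iff_dvd.1 hcop
              -- `q` divides the prime
              have f1 : (q : ℤ) ∣ (p n : ℤ) + 2 * (a * n + Nv y h c κ v) := by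
                rw [← e n]
                apply dvd_add
                · apply Dvd.dvd.mul_left
                  unfold Nv
                  exact (by exact_mod_cast hqb : (q : ℤ) ∣ ((primorial y * h : ℕ) : ℤ)).mul_right _
                · rw [one_mul]
                  exact_mod_cast hqa
              have f0 : (0 : ℤ) ≤ (p n : ℤ) := Int.natCast_nonneg _
              have f0' : (0 : ℤ) ≤ (a : ℤ) * n := by positivity
              have f2 : (0 : ℤ) < (p n : ℤ) + 2 * (a * n + Nv y h c κ v) := by linarith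
              have f3 : q ∣ ((p n : ℤ) + 2 * (a * n + Nv y h c κ v)).toNat := by
                rw [← Int.natCast_dvd_natCast, Int.toNat_of_nonneg f2.le]
                exact f1
              have f4 := (Nat.prime_dvd_prime_iff_eq hqp g4).1 f3
              have f5 : q ≤ primorial y * h := Nat.le_of_dvd (Nat.mul_pos (primorial_pos y) hh1) hqb
              have f6 : ((primorial y * h : ℕ) : ℤ) ≤ Nv y h c κ v := by
                apply Int.le_of_dvd q1
                unfold Nv
                exact dvd_mul_right _ _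
              have f7 : (q : ℤ) = (p n : ℤ) + 2 * (a * n + Nv y h c κ v) := by
                rw [f4, Int.toNat_of_nonneg f2.le]
              have f8 : (q : ℤ) ≤ ((primorial y * h : ℕ) : ℤ) := by exact_mod_cast f5
              linarith
            refine ⟨hnS, ?_⟩
            rw [hNv, e n]
            exact g4
        rw [e1, hcard]
        refine lt_of_le_of_lt ?_ q2
        apply mul_le_mul_of_nonneg_right hε2
        exact div_nonneg (Nat.cast_nonneg _) (mul_nonneg hVy.le (mul_nonneg hk0.le hlogb))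
    · rw [if_neg hq]
      split_ifs
      · exact hpv
      · exact le_rfl
  -- Markov
  obtain ⟨cnt, hcnt⟩ : ∃ cnt : ℕ → ℝ, ∀ v, cnt v = (((range (A + 1) ×ˢ Icc 1 H).filter (fun z => Bd z v)).card : ℝ) := ⟨_, fun _ => rfl⟩
  have hcnt0 : ∀ v, 0 ≤ cnt v := fun v => by rw [hcnt]; exact Nat.cast_nonneg _
  have hset : ∀ v, (((range (A + 1) ×ˢ Icc 1 H).filter (fun z => ¬ (0 < Nv y z.2 c κ v →
          |((Good z.1 x (Nv y z.2 c κ v)).card : ℝ) - (Adm z.1 (primorial y * z.2) x).card / (V y * (k * Real.log b))| ≤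
            ε * ((Adm z.1 (primorial y * z.2) x).card / (V y * (k * Real.log b)))))).card : ℝ) = cnt v := by
    intro v
    rw [hcnt]
    congr 2
    apply filter_congr
    intro z _
    rw [hBd]
    push Not
    rfl
  have hexp : ∑ v ∈ range (b ^ k), μ v * cnt v ≤ ((A + 1) * H) * ε ^ 2 := by
    have e1 : ∀ v, μ v * cnt v = ∑ z ∈ range (A + 1) ×ˢ Icc 1 H, (if Bd z v then μ v else 0) := by
      intro v
      rw [hcnt, card_eq_sum_ones, Nat.cast_sum, sum_filter, mul_sum]
      apply sum_congr rfl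
      intro z _
      split_ifs <;> simp
    simp_rw [e1]
    rw [sum_comm]
    refine (sum_le_sum key).trans (le_of_eq ?_)
    rw [sum_const, card_product, card_range, Nat.card_Icc, nsmul_eq_mul, Nat.add_sub_cancel]
    push_cast
    ring
  simp_rw [hset]
  rcases Nat.eq_zero_or_pos H with hH0 | hH0
  · refine le_trans (le_of_eq ?_) hε.le
    apply sum_eq_zero
    intro v _
    rw [if_pos]
    rw [hcnt, hH0]
    simp
  · have hHr : (0 : ℝ) < H := by exact_mod_cast hH0
    have hAr : (0 : ℝ) < (A : ℝ) + 1 := by positivity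
    have h6 : (∑ v ∈ range (b ^ k), (if cnt v ≤ ε * ((A + 1) * H) then 0 else μ v)) * (ε * ((A + 1) * H)) ≤ ε * (ε * ((A + 1) * H)) := by
      calc (∑ v ∈ range (b ^ k), (if cnt v ≤ ε * ((A + 1) * H) then 0 else μ v)) * (ε * ((A + 1) * H)) ≤ ∑ v ∈ range (b ^ k), μ v * cnt v := by
            rw [sum_mul]
            apply sum_le_sum
            intro v _
            have hpv := hC.nonneg _ _ hμ v
            split_ifs with hv
            · rw [zero_mul]
              exact mul_nonneg hpv (hcnt0 v)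
            · exact mul_le_mul_of_nonneg_left (not_le.1 hv).le hpv
        _ ≤ ((A + 1) * H) * ε ^ 2 := hexp
        _ = _ := by ring
    exact le_of_mul_le_mul_right h6 (by positivity)

open Classical in
/-- Let `δ` be a graph (infinite or not) whose edges are labelled with the digits in base `b`, let `u` be a vertex, and let
`ρ > 0` be such that there are at most `ρ ^ (2 n)` closed walks of the length `2 n` at `u`, for all `n`. Let `κ ≠ 0`, `D`, `B`,
`J`, `C`, `K₁`, `θ > 0` and `0 < ε ≤ 1` be fixed, let `k` be large, let `z` be a vertex such that the number of the walks of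
the length `k` from `u` to `z` is at least `ρ ^ k / k ^ D`, let `y` be between `θ log k` and `K₁ log k` (`θ > 0` is
arbitrary), `M` the product of the primes `≤ y`, `|c| ≤ B b ^ k`, and let `x` be an integer with `b ^ k ≤ x k ^ C`,
`x ≤ b ^ k k ^ C`, and `A, H ≤ k ^ J`. For `a ≤ A`, `1 ≤ h ≤ H` let
`E_{a,h} = #{i ≤ x: p_i + 2 a i prime to M h} / (V y log b ^ k)`; this set has at least `⌊x / (M h)⌋` elements. Then for all
the integers `v` such that the `k` digits of `v` in base `b` are the labels of a walk from `u` to `z`, with the exception of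
a proportion of at most `ε`, all but at most `ε (A + 1) H` of the pairs `(a, h)`, `0 ≤ a ≤ A`, `1 ≤ h ≤ H`, have the
property: if `N_h = h M (c + κ v) > 0`, then the number of ALL `i ≤ x` such that `p_i + 2 P(i)` is prime for the polynomial
`P(i) = a i + N_h` differs from `E_{a,h}` by at most `ε E_{a,h}`.

(For a group of polynomial growth, a free group, or any group with the property of rapid decay, there are at least
`ρ ^ k / k ^ D` closed walks of every even length `k` in the Cayley graph, where `ρ` is its spectral radius.) -/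
theorem result {X : Type} (b : ℕ) (δ : X → ℕ → Option X) (hG : Graph b δ) (u : X) (ρ : ℝ) (hρ : 0 < ρ)
    (hR : ∀ n : ℕ, ((walks b δ (2 * n) u u).card : ℝ) ≤ ρ ^ (2 * n)) (κ : ℤ) (hκ : κ ≠ 0) (D B J C K₁ : ℕ) (θ : ℝ)
    (hθ : 0 < θ) (ε : ℝ) (hε : 0 < ε) (hε1 : ε ≤ 1) :
    ∃ k₀ : ℕ, ∀ k : ℕ, k₀ ≤ k → ∀ z : X, ρ ^ k / (k : ℝ) ^ D ≤ (walks b δ k u z).card →
      ∀ y : ℕ, θ * Real.log k ≤ y → y ≤ K₁ * Real.log k → ∀ c : ℤ, |c| ≤ B * (b : ℤ) ^ k →
      ∀ A H : ℕ, A ≤ k ^ J → H ≤ k ^ J → ∀ x : ℕ, b ^ k ≤ x * k ^ C → x ≤ b ^ k * k ^ C →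
        (∀ a h : ℕ, x / (primorial y * h) ≤ (Adm a (primorial y * h) x).card) ∧
        (((walks b δ k u z).filter fun v => ¬ (((range (A + 1) ×ˢ Icc 1 H).filter (fun w => ¬ (0 < Nv y w.2 c κ v →
          |((Good w.1 x (Nv y w.2 c κ v)).card : ℝ) - (Adm w.1 (primorial y * w.2) x).card / (V y * (k * Real.log b))| ≤
            ε * ((Adm w.1 (primorial y * w.2) x).card / (V y * (k * Real.log b)))))).card : ℝ) ≤ ε * ((A + 1) * H)).card : ℝ) ≤
          ε * (walks b δ k u z).card := by
  have hG' : Pool.Agent.N625.GW.Graph b δ := ⟨hG.symm, hG.two⟩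
  have hb : 2 ≤ b := Pool.Agent.N625.GW.two_le hG' u
  obtain ⟨k₀, h0⟩ := main b _ hb _ (Pool.Agent.U847.XP.w_scls hG' u ρ hρ hR D) κ hκ B J C K₁ θ hθ ε hε hε1
  refine ⟨k₀ + 1, fun k hk z hz y hy1 hy2 c hc A H hA hH x hx1 hx2 => ⟨fun a h => adm_card a _ x, ?_⟩⟩
  have key := Pool.Agent.U847.XW.w_num hρ (by omega) hz (fun v : ℕ => ¬ (((range (A + 1) ×ˢ Icc 1 H).filter (fun w =>
    ¬ (0 < Nv y w.2 c κ v →
          |((Good w.1 x (Nv y w.2 c κ v)).card : ℝ) - (Adm w.1 (primorial y * w.2) x).card / (V y * (k * Real.log b))| ≤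
            ε * ((Adm w.1 (primorial y * w.2) x).card / (V y * (k * Real.log b)))))).card : ℝ) ≤ ε * ((A + 1) * H)) (ε := ε)
    (fun p hp => by
      refine le_trans (le_of_eq ?_) (h0 k (by omega) p hp y hy1 hy2 c hc A H hA hH x hx1 hx2).2
      apply sum_congr rfl
      intro v _
      split_ifs <;> first | rfl | contradiction)
  have hw : walks b δ k u z = Pool.Agent.N625.GW.walks b δ k u z := rfl
  rw [hw]
  refine le_trans (le_of_eq ?_) key
  congr!

end Pool.Agent.Results.MP_3aaefc_nt.WalkLinearPolynomials
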