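import Pool.Agent.U710.XP.G
import Pool.Agent.U710.XP.S
import Pool.Agent.U710.XP.Q
import Pool.Agent.N625.PT.X13
import Pool.Agent.Y877.SxI

/-!
# The number of all `n ≤ x` with `p_n + 2 (a n + N)` prime, for almost all slopes `a` and almost all multiples `N` of the
integers near the values of functions which grow faster than any power

The linear polynomials `P(n) = a n + N` with `N = h M u`, where `M` is the product of the primes `≤ z` and `u` runs over all
the integers near the values `⌊exp (α (log m) ^ γ + β)⌋`, `1 < γ < 3 / 2`.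

From Mathlib: `Nat.nth Nat.Prime`: the sequence of the primes; `primorial z`: the product of the primes `≤ z`;
`Finset.Icc 1 x`: the integers from `1` to `x`; `s ×ˢ t`: the product of two finite sets.

Method (`Pool.Agent.U710.LE`, new): exponential sums over the values with Vinogradov's mean value theorem for a degree which
tends to infinity. They have power savings in `log` at ALL frequencies which are not close to integers, and quasi-exponential
savings at the rational numbers with small denominators. The passage to the numbers of primes (`main`) is from the file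
`WalkLinearPolynomials` and from `Pool.Agent.U847.X*` (helper847), and from the starting files `Pool.Agent.N625.PT.X*`, with a
weaker condition at the rational numbers (`Pool.Agent.U710.XP`).
-/

set_option autoImplicit false

namespace Pool.Agent.Results.MP_3aaefc_nt.SubexponentialLinearPolynomials

open Finset Filter

/-- The sequence: `S α β γ m = ⌊exp (α (log m) ^ γ + β)⌋`. -/
noncomputable def S (α β γ : ℝ) (m : ℕ) : ℕ := ⌊Real.exp (α * Real.log m ^ γ + β)⌋₊

/-- the `n`-th prime, `n ≥ 1` -/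
noncomputable def p (n : ℕ) : ℕ := Nat.nth Nat.Prime (n - 1)

/-- the product of `1 - 1/q` over the primes `q ≤ y` -/
noncomputable def V (y : ℕ) : ℝ := ∏ q ∈ (Icc 1 y).filter Nat.Prime, (1 - 1 / (q : ℝ))

/-- the multiple of the product of the primes `≤ y` given by the integers `h` and `c + κ v` -/
def Nv (y h : ℕ) (c κ : ℤ) (v : ℕ) : ℤ := ((primorial y * h : ℕ) : ℤ) * (c + κ * v)

/-- the `1 ≤ i ≤ x` such that `p_i + 2 P(i)` is prime, for the linear polynomial `P(i) = a i + n` -/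
noncomputable def Good (a x : ℕ) (n : ℤ) : Finset ℕ := (Icc 1 x).filter (fun i : ℕ => ((p i : ℤ) + 2 * (a * i + n)).toNat.Prime)

/-- the `1 ≤ i ≤ x` such that `p_i + 2 a i` is prime to `D` -/
noncomputable def Adm (a D x : ℕ) : Finset ℕ := (Icc 1 x).filter (fun i : ℕ => (p i + 2 * a * i).Coprime D)

lemma p_lt (n : ℕ) (hn : 1 ≤ n) : n < p n := by
  unfold p
  have := Nat.add_two_le_nth_prime (n - 1)
  omega

lemma p_prime (n : ℕ) : (p n).Prime := Nat.prime_nth_prime _

lemma f_inj (a : ℕ) {m n : ℕ} (hm : 1 ≤ m) (hn : 1 ≤ n) (h : p m + 2 * a * m = p n + 2 * a * n) : m = n := by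
  rcases lt_trichotomy m n with hlt | heq | hlt
  · exfalso
    have h1 : p m < p n := Nat.nth_strictMono Nat.infinite_setOf_prime (by omega)
    have h2 : 2 * a * m ≤ 2 * a * n := Nat.mul_le_mul_left _ hlt.le
    omega
  · exact heq
  · exfalso
    have h1 : p n < p m := Nat.nth_strictMono Nat.infinite_setOf_prime (by omega)
    have h2 : 2 * a * n ≤ 2 * a * m := Nat.mul_le_mul_left _ hlt.le
    omega

lemma mult_adm (a D n : ℕ) (hn : 1 ≤ n) (hD : D ∣ n) : (p n + 2 * a * n).Coprime D := by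
  by_contra hcop
  obtain ⟨q, hqp, hqa, hqb⟩ := Nat.Prime.not_coprime_iff_dvd.1 hcop
  have h1 : q ∣ n := hqb.trans hD
  have h2 : q ∣ p n := (Nat.dvd_add_left (h1.mul_left (2 * a))).1 hqa
  have h3 : q = p n := (Nat.prime_dvd_prime_iff_eq hqp (p_prime n)).1 h2
  have h4 := Nat.le_of_dvd (by omega) h1
  have h5 := p_lt n hn
  omega

lemma adm_card (a D x : ℕ) : x / D ≤ (Adm a D x).card := by
  rw [← Nat.Ioc_filter_dvd_card_eq_div x D]
  apply card_le_card
  intro n hn
  rw [mem_filter, mem_Ioc] at hn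
  unfold Adm
  rw [mem_filter, mem_Icc]
  exact ⟨⟨by omega, hn.1.2⟩, mult_adm a D n (by omega) hn.2⟩

set_option maxHeartbeats 2000000 in
open Classical in
/-- the law for a class of distributions -/
theorem main (b q₀ : ℕ) (hb : 2 ≤ b) (Cl : ℕ → (ℕ → ℝ) → Prop) (hC : Pool.Agent.U710.XP.SCls b q₀ Cl) : ∀ κ : ℤ, κ ≠ 0 →
    ∀ (B J C K₁ : ℕ) (θ : ℝ), 0 < θ → ∀ ε : ℝ, 0 < ε → ε ≤ 1 → ∃ k₀ : ℕ, ∀ k : ℕ, k₀ ≤ k →
    ∀ μ : ℕ → ℝ, Cl k μ → ∀ y : ℕ, θ * Real.log k ≤ y → y ≤ K₁ * Real.log k →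
    ∀ c : ℤ, |c| ≤ B * (b : ℤ) ^ k → ∀ A H : ℕ, A ≤ k ^ J → H ≤ k ^ J →
    ∀ x : ℕ, b ^ k ≤ x * k ^ C → x ≤ b ^ k * k ^ C →
      (∀ a h : ℕ, x / (primorial y * h) ≤ (Adm a (primorial y * h) x).card) ∧
      ∑ v ∈ range (b ^ k), (if (((range (A + 1) ×ˢ Icc 1 H).filter (fun z => ¬ (0 < Nv y z.2 c κ v →
          |((Good z.1 x (Nv y z.2 c κ v)).card : ℝ) - (Adm z.1 (primorial y * z.2) x).card / (V y * (k * Real.log b))| ≤
            ε * ((Adm z.1 (primorial y * z.2) x).card / (V y * (k * Real.log b)))))).card : ℝ) ≤ ε * ((A + 1) * H)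
        then 0 else μ v) ≤ ε := by
  classical
  intro κ hκ B J C K₁ θ hθ ε hε hε1
  have hε2 : ε ^ 2 ≤ ε := by nlinarith
  obtain ⟨k₀, h0⟩ := Pool.Agent.U710.XP.law2 b q₀ hb Cl hC (2 * κ) (mul_ne_zero two_ne_zero hκ) (2 * B) J
    (2 * K₁ + 2 * J + 6) (C + J + 5) K₁ θ hθ (ε ^ 2) (by positivity) (hε2.trans hε1)
  obtain ⟨k₁, h1⟩ := Pool.Agent.N625.PT.X_large b C hb
  obtain ⟨k₂, h2⟩ := Pool.Agent.N625.PT.log_X b C hb
  obtain ⟨k₃, h3⟩ := Pool.Agent.N625.PT.pow_le_pow_digits b hb (2 * K₁ + J + C)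
  obtain ⟨n4, hn4⟩ := Pool.Agent.Y877.SX.nth_le_log
  refine ⟨max (max k₀ k₁) (max (max k₂ k₃) (max 5 n4)), fun k hk μ hμ y hy1 hy2 c hc A H hA hH x hx1 hx2 =>
    ⟨fun a h => adm_card a _ x, ?_⟩⟩
  have b4 : 5 ≤ k := by omega
  have hkr : (5 : ℝ) ≤ k := by exact_mod_cast b4
  have hk0 : (0 : ℝ) < k := by linarith
  have hkx := h1 k (by omega) x hx1
  have hlx := h2 k (by omega) x hx2
  have hk3 := h3 k (by omega)
  have hln : 0 ≤ Real.log x := Real.log_natCast_nonneg x
  have hx0 : (0 : ℝ) ≤ x := Nat.cast_nonneg x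
  have hbigx : k ^ (2 * K₁ + J) ≤ x := by
    have : k ^ (2 * K₁ + J) * k ^ C ≤ x * k ^ C := by
      rw [← pow_add]
      exact hk3.trans hx1
    exact Nat.le_of_mul_le_mul_right this (by positivity)
  have hX1 : b ^ k ≤ (x * k ^ (J + 5)) * k ^ (C + J + 5) := by
    refine hx1.trans ?_
    rw [mul_assoc, ← pow_add]
    exact Nat.mul_le_mul_left _ (Nat.pow_le_pow_right (by omega) (by omega))
  have hX2 : x * k ^ (J + 5) ≤ b ^ k * k ^ (C + J + 5) := by
    calc x * k ^ (J + 5) ≤ (b ^ k * k ^ C) * k ^ (J + 5) := Nat.mul_le_mul_right _ hx2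
      _ = _ := by rw [mul_assoc, ← pow_add, add_assoc]
  have hp : ∀ n : ℕ, n ≤ x → p n ≤ x * k ^ 4 := by
    intro n hn
    have g1 : ((p n : ℕ) : ℝ) ≤ x * (k : ℝ) ^ 4 := by
      refine (hn4 x (by omega) (n - 1) (by omega)).trans ?_
      apply mul_le_mul_of_nonneg_left _ hx0
      calc Real.log x ^ 2 ≤ ((k : ℝ) ^ 2) ^ 2 := pow_le_pow_left₀ hln hlx _
        _ = (k : ℝ) ^ 4 := by rw [← pow_mul]
    exact_mod_cast g1
  have hf : ∀ a n : ℕ, a ≤ A → n ≤ x → p n + 2 * a * n ≤ x * k ^ (J + 5) := by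
    intro a n ha hn
    have g1 : 2 * a * n ≤ 2 * k ^ J * x := Nat.mul_le_mul (Nat.mul_le_mul_left 2 (ha.trans hA)) hn
    have g2 := hp n hn
    have g3 : k ^ 4 + 2 * k ^ J ≤ k ^ (J + 5) := by
      have e1 : 1 ≤ k ^ J := Nat.one_le_pow _ _ (by omega)
      have e2 : 1 ≤ k ^ 4 := Nat.one_le_pow _ _ (by omega)
      have e3 : k ^ (J + 5) = k ^ J * (k ^ 4 * k) := by ring
      rw [e3]
      calc k ^ 4 + 2 * k ^ J ≤ k ^ J * k ^ 4 + 2 * (k ^ J * k ^ 4) := by nlinarith
        _ = k ^ J * (k ^ 4 * 3) := by ring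
        _ ≤ _ := Nat.mul_le_mul_left _ (Nat.mul_le_mul_left _ (by omega))
    calc p n + 2 * a * n ≤ x * k ^ 4 + 2 * k ^ J * x := by omega
      _ = x * (k ^ 4 + 2 * k ^ J) := by ring
      _ ≤ _ := Nat.mul_le_mul_left _ g3
  obtain ⟨Bd, hBd⟩ : ∃ Bd : ℕ × ℕ → ℕ → Prop, ∀ z v, Bd z v ↔ (0 < Nv y z.2 c κ v ∧
    ε * ((Adm z.1 (primorial y * z.2) x).card / (V y * (k * Real.log b))) <
    |((Good z.1 x (Nv y z.2 c κ v)).card : ℝ) - (Adm z.1 (primorial y * z.2) x).card / (V y * (k * Real.log b))|) := ⟨_, fun _ _ => Iff.rfl⟩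
  have hVy : 0 < V y := Pool.Agent.H373R2.T7.Vz_pos y
  have hlogb : 0 ≤ Real.log b := Real.log_natCast_nonneg b
  have key : ∀ z ∈ range (A + 1) ×ˢ Icc 1 H, ∑ v ∈ range (b ^ k), (if Bd z v then μ v else 0) ≤ ε ^ 2 := by
    intro z hz
    obtain ⟨a, h⟩ := z
    rw [mem_product, mem_range, mem_Icc] at hz
    obtain ⟨haA, hh1, hhH⟩ := hz
    simp only at haA hh1 hhH
    have haA' : a ≤ A := by omega
    obtain ⟨D, hD⟩ : ∃ D, D = primorial y * h := ⟨_, rfl⟩
    have hD1 : 1 ≤ D := by rw [hD]; exact Nat.mul_pos (primorial_pos y) hh1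
    have hDk : D ≤ k ^ (2 * K₁ + J) := by
      rw [hD]
      exact Pool.Agent.N625.PT.mult_small K₁ J k y h (by omega) hy2 (hhH.trans hH)
    have hDx : D ≤ x := hDk.trans hbigx
    obtain ⟨S, hS⟩ : ∃ S, S = Adm a (primorial y * h) x := ⟨_, rfl⟩
    have hden : (x : ℝ) ≤ S.card * (k : ℝ) ^ (2 * K₁ + J + 1) := by
      have g1 : x / D ≤ S.card := by rw [hS, hD]; exact adm_card a _ x
      have g2 : x ≤ 2 * (x / D * D) := by
        have e1 := Nat.div_add_mod x D
        have e2 : x % D < D := Nat.mod_lt _ (by omega)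
        have e3 : 1 ≤ x / D := (Nat.one_le_div_iff (by omega)).2 hDx
        have e4 : D ≤ x / D * D := Nat.le_mul_of_pos_left _ e3
        have e5 : D * (x / D) = x / D * D := by ring
        omega
      have g3 : x ≤ S.card * k ^ (2 * K₁ + J + 1) := by
        calc x ≤ 2 * (x / D * D) := g2
          _ ≤ 2 * (S.card * k ^ (2 * K₁ + J)) := Nat.mul_le_mul_left 2 (Nat.mul_le_mul g1 hDk)
          _ = S.card * (k ^ (2 * K₁ + J) * 2) := by ring
          _ ≤ S.card * (k ^ (2 * K₁ + J) * k) := Nat.mul_le_mul_left _ (Nat.mul_le_mul_left _ (by omega))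
          _ = _ := by rw [← pow_succ]
      exact_mod_cast g3
    have hS1 : ∀ n ∈ S, 1 ≤ n ∧ n ≤ x ∧ (p n + 2 * a * n).Coprime (primorial y * h) := by
      intro n hn
      rw [hS] at hn
      unfold Adm at hn
      rw [mem_filter, mem_Icc] at hn
      exact ⟨hn.1.1, hn.1.2, hn.2⟩
    obtain ⟨S', hS'⟩ : ∃ S', S' = S.image (fun n : ℕ => p n + 2 * a * n) := ⟨_, rfl⟩
    have hinj : Set.InjOn (fun n : ℕ => p n + 2 * a * n) S := fun m hm n hn hmn =>
      f_inj a (hS1 m (by exact_mod_cast hm)).1 (hS1 n (by exact_mod_cast hn)).1 hmn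
    have hcard : S'.card = S.card := by rw [hS']; exact card_image_of_injOn hinj
    have hc2 : |2 * c| ≤ ((2 * B : ℕ) : ℤ) * (b : ℤ) ^ k := by
      rw [abs_mul]
      push_cast
      have : |(2 : ℤ)| = 2 := rfl
      rw [this]
      linarith
    have h5 := h0 k (by omega) μ hμ y hy1 hy2 (2 * c) hc2 h hh1 (hhH.trans hH) (x * k ^ (J + 5)) hX1 hX2 S' (by
        intro s hs
        rw [hS', mem_image] at hs
        obtain ⟨n, hn, rfl⟩ := hs
        have g1 := hS1 n hn
        rw [mem_Icc]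
        exact ⟨by have := (p_prime n).pos; omega, hf a n haA' g1.2.1⟩) (by
        intro s hs
        rw [hS', mem_image] at hs
        obtain ⟨n, hn, rfl⟩ := hs
        exact (hS1 n hn).2.2) (by
        rw [hcard]
        push_cast
        calc (x : ℝ) * (k : ℝ) ^ (J + 5) ≤ (S.card * (k : ℝ) ^ (2 * K₁ + J + 1)) * (k : ℝ) ^ (J + 5) :=
              mul_le_mul_of_nonneg_right hden (by positivity)
          _ = _ := by rw [mul_assoc, ← pow_add]; congr 2; omega) 1 (Or.inl rfl)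
    refine le_trans (sum_le_sum fun v _ => ?_) h5
    have hpv := hC.nonneg _ _ hμ v
    by_cases hq : Bd (a, h) v
    · rw [if_pos hq, if_pos]
      rw [hBd] at hq
      simp only at hq
      rw [← hS] at hq
      obtain ⟨q1, q2⟩ := hq
      have hNv : ((primorial y * h : ℕ) : ℤ) * (2 * c + 2 * κ * (v : ℕ)) = 2 * Nv y h c κ v := by
        unfold Nv
        ring
      refine ⟨fun s hs => ?_, ?_⟩
      · rw [hNv]
        have : (0 : ℤ) ≤ (s : ℤ) := Int.natCast_nonneg s
        linarith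
      · have e1 : (S'.filter (fun s : ℕ => (((primorial y * h : ℕ) : ℤ) * (2 * c + 2 * κ * (v : ℕ)) + 1 * (s : ℕ)).toNat.Prime)).card =
            (Good a x (Nv y h c κ v)).card := by
          rw [hS', filter_image, card_image_of_injOn (hinj.mono (by
            intro i hi
            rw [mem_coe, mem_filter] at hi
            exact_mod_cast hi.1))]
          unfold Good
          congr 1
          ext n
          rw [mem_filter, mem_filter, mem_Icc]
          have e : ∀ n : ℕ, 2 * Nv y h c κ v + 1 * ((p n + 2 * a * n : ℕ) : ℤ) = (p n : ℤ) + 2 * (a * n + Nv y h c κ v) := by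
            intro n
            push_cast
            ring
          constructor
          · rintro ⟨hn, hpr⟩
            have g1 := hS1 n hn
            rw [hNv, e n] at hpr
            exact ⟨⟨g1.1, g1.2.1⟩, hpr⟩
          · rintro ⟨⟨g1, g2⟩, g4⟩
            have hnS : n ∈ S := by
              rw [hS]
              unfold Adm
              rw [mem_filter, mem_Icc]
              refine ⟨⟨g1, g2⟩, ?_⟩
              by_contra hcop
              obtain ⟨q, hqp, hqa, hqb⟩ := Nat.Prime.not_coprime_iff_dvd.1 hcop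
              -- `q` divides the prime
              have f1 : (q : ℤ) ∣ (p n : ℤ) + 2 * (a * n + Nv y h c κ v) := by
                rw [← e n]
                apply dvd_add
                · apply Dvd.dvd.mul_left
                  unfold Nv
                  exact (by exact_mod_cast hqb : (q : ℤ) ∣ ((primorial y * h : ℕ) : ℤ)).mul_right _
                · rw [one_mul]
                  exact_mod_cast hqa
              have f0 : (0 : ℤ) ≤ (p n : ℤ) := Int.natCast_nonneg _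
              have f0' : (0 : ℤ) ≤ (a : ℤ) * n := by positivity
              have f2 : (0 : ℤ) < (p n : ℤ) + 2 * (a * n + Nv y h c κ v) := by linarith
              have f3 : q ∣ ((p n : ℤ) + 2 * (a * n + Nv y h c κ v)).toNat := by
                rw [← Int.natCast_dvd_natCast, Int.toNat_of_nonneg f2.le]
                exact f1
              have f4 := (Nat.prime_dvd_prime_iff_eq hqp g4).1 f3
              have f5 : q ≤ primorial y * h := Nat.le_of_dvd (Nat.mul_pos (primorial_pos y) hh1) hqb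
              have f6 : ((primorial y * h : ℕ) : ℤ) ≤ Nv y h c κ v := by
                apply Int.le_of_dvd q1
                unfold Nv
                exact dvd_mul_right _ _
              have f7 : (q : ℤ) = (p n : ℤ) + 2 * (a * n + Nv y h c κ v) := by
                rw [f4, Int.toNat_of_nonneg f2.le]
              have f8 : (q : ℤ) ≤ ((primorial y * h : ℕ) : ℤ) := by exact_mod_cast f5
              linarith
            refine ⟨hnS, ?_⟩
            rw [hNv, e n]
            exact g4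
        rw [e1, hcard]
        refine lt_of_le_of_lt ?_ q2
        apply mul_le_mul_of_nonneg_right hε2
        exact div_nonneg (Nat.cast_nonneg _) (mul_nonneg hVy.le (mul_nonneg hk0.le hlogb))
    · rw [if_neg hq]
      split_ifs
      · exact hpv
      · exact le_rfl
  -- Markov
  obtain ⟨cnt, hcnt⟩ : ∃ cnt : ℕ → ℝ, ∀ v, cnt v = (((range (A + 1) ×ˢ Icc 1 H).filter (fun z => Bd z v)).card : ℝ) := ⟨_, fun _ => rfl⟩
  have hcnt0 : ∀ v, 0 ≤ cnt v := fun v => by rw [hcnt]; exact Nat.cast_nonneg _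
  have hset : ∀ v, (((range (A + 1) ×ˢ Icc 1 H).filter (fun z => ¬ (0 < Nv y z.2 c κ v →
          |((Good z.1 x (Nv y z.2 c κ v)).card : ℝ) - (Adm z.1 (primorial y * z.2) x).card / (V y * (k * Real.log b))| ≤
            ε * ((Adm z.1 (primorial y * z.2) x).card / (V y * (k * Real.log b)))))).card : ℝ) = cnt v := by
    intro v
    rw [hcnt]
    congr 2
    apply filter_congr
    intro z _
    rw [hBd]
    push Not
    rfl
  have hexp : ∑ v ∈ range (b ^ k), μ v * cnt v ≤ ((A + 1) * H) * ε ^ 2 := by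
    have e1 : ∀ v, μ v * cnt v = ∑ z ∈ range (A + 1) ×ˢ Icc 1 H, (if Bd z v then μ v else 0) := by
      intro v
      rw [hcnt, card_eq_sum_ones, Nat.cast_sum, sum_filter, mul_sum]
      apply sum_congr rfl
      intro z _
      split_ifs <;> simp
    simp_rw [e1]
    rw [sum_comm]
    refine (sum_le_sum key).trans (le_of_eq ?_)
    rw [sum_const, card_product, card_range, Nat.card_Icc, nsmul_eq_mul, Nat.add_sub_cancel]
    push_cast
    ring
  simp_rw [hset]
  rcases Nat.eq_zero_or_pos H with hH0 | hH0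
  · refine le_trans (le_of_eq ?_) hε.le
    apply sum_eq_zero
    intro v _
    rw [if_pos]
    rw [hcnt, hH0]
    simp
  · have hHr : (0 : ℝ) < H := by exact_mod_cast hH0
    have hAr : (0 : ℝ) < (A : ℝ) + 1 := by positivity
    have h6 : (∑ v ∈ range (b ^ k), (if cnt v ≤ ε * ((A + 1) * H) then 0 else μ v)) * (ε * ((A + 1) * H)) ≤ ε * (ε * ((A + 1) * H)) := by
      calc (∑ v ∈ range (b ^ k), (if cnt v ≤ ε * ((A + 1) * H) then 0 else μ v)) * (ε * ((A + 1) * H)) ≤ ∑ v ∈ range (b ^ k), μ v * cnt v := by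
            rw [sum_mul]
            apply sum_le_sum
            intro v _
            have hpv := hC.nonneg _ _ hμ v
            split_ifs with hv
            · rw [zero_mul]
              exact mul_nonneg hpv (hcnt0 v)
            · exact mul_le_mul_of_nonneg_left (not_le.1 hv).le hpv
        _ ≤ ((A + 1) * H) * ε ^ 2 := hexp
        _ = _ := by ring
    exact le_of_mul_le_mul_right h6 (by positivity)

/-- the `1 ≤ h ≤ H` and `0 ≤ a ≤ T` for which, for the polynomial `P(i) = a i + N` with `N = h M u`, the number of ALL `i ≤ x` with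
`p_i + 2 P(i)` prime is not between `(1 - ε) E` and `(1 + ε) E`, `E = #Adm / (V(z) L)`, although `N > 0` -/
noncomputable def badPairs (T H x z : ℕ) (ε L : ℝ) (u : ℤ) : Finset (ℕ × ℕ) := by
  classical
  exact (range (T + 1) ×ˢ Icc 1 H).filter (fun t => ¬ (0 < ((primorial z * t.2 : ℕ) : ℤ) * u →
    |((Good t.1 x (((primorial z * t.2 : ℕ) : ℤ) * u)).card : ℝ) - (Adm t.1 (primorial z * t.2) x).card / (V z * L)| ≤
      ε * ((Adm t.1 (primorial z * t.2) x).card / (V z * L))))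

open Classical in
/-- Let `S(m) = ⌊exp (α (log m) ^ γ + β)⌋`, `α > 0`, `1 < γ < 3/2` (it grows faster than any power of `m`, and has only `N ^ o(1)`
members up to `N`). Let `κ ≠ 0`, `A`, `B`, `J`, `C`, `K₁`, `R` be integers, `θ > 0`, `0 < ε ≤ 1`, let `y` be large and
`L = log S(y)`. Let `y / (log y) ^ A ≤ w ≤ y / log y`, let `z` be between `θ log L` and `K₁ log L` (`θ > 0` is arbitrary), `M`
the product of the primes `≤ z`, `|c| ≤ B S(y)`, `T, H ≤ L ^ J`, `S(y) ≤ x L ^ C` and `x ≤ S(y) L ^ C`. For `a ≤ T`,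
`1 ≤ h ≤ H` let `E_{a,h} = #{i ≤ x: p_i + 2 a i prime to M h} / (V(z) L)`; this set has at least `⌊x / (M h)⌋` elements. All but
at most `ε w` of the integers `m` in `(y - w, y]` are such that for ALL the integers `u` with `|u - (c + κ S(m))| ≤ R` all but
at most `ε (T + 1) H` of the pairs `(a, h)`, `0 ≤ a ≤ T`, `1 ≤ h ≤ H`, have the property: if `N = h M u > 0`, then the number
of ALL `i ≤ x` such that `p_i + 2 P(i)` is prime for the polynomial `P(i) = a i + N` differs from `E_{a,h}` by at most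
`ε E_{a,h}`. -/
theorem result (α β γ : ℝ) (hα : 0 < α) (hγ1 : 1 < γ) (hγ2 : γ < 3 / 2) (κ : ℤ) (hκ : κ ≠ 0) (A B J C K₁ R : ℕ) (θ : ℝ)
    (hθ : 0 < θ) (ε : ℝ) (hε : 0 < ε) (hε1 : ε ≤ 1) : ∀ᶠ y : ℕ in atTop, ∀ w : ℕ, (y : ℝ) / Real.log y ^ A ≤ w →
    (w : ℝ) ≤ y / Real.log y → ∀ z : ℕ, θ * Real.log (Real.log (S α β γ y)) ≤ z → z ≤ K₁ * Real.log (Real.log (S α β γ y)) →
    ∀ c : ℤ, |c| ≤ B * (S α β γ y : ℕ) → ∀ T H : ℕ, (T : ℝ) ≤ Real.log (S α β γ y) ^ J → (H : ℝ) ≤ Real.log (S α β γ y) ^ J →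
    ∀ x : ℕ, (S α β γ y : ℝ) ≤ x * Real.log (S α β γ y) ^ C → (x : ℝ) ≤ S α β γ y * Real.log (S α β γ y) ^ C →
    (∀ a h : ℕ, x / (primorial z * h) ≤ (Adm a (primorial z * h) x).card) ∧
    (((Ioc (y - w) y).filter (fun m : ℕ => ¬ ∀ u : ℤ, |u - (c + κ * (S α β γ m : ℕ))| ≤ R →
      ((badPairs T H x z ε (Real.log (S α β γ y)) u).card : ℝ) ≤ ε * ((T + 1) * H))).card : ℝ) ≤ ε * w := by
  obtain ⟨ζ, σ, hζ, hζ1, hσ, hdist⟩ := Pool.Agent.U710.XP.ef_dist α β γ hα hγ1 hγ2 A
  obtain ⟨ε', hε'⟩ : ∃ ε' : ℝ, ε' = ε / (2 * (2 * R + 1)) := ⟨_, rfl⟩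
  have hR1 : (1 : ℝ) ≤ 2 * R + 1 := by
    have : (0 : ℝ) ≤ R := Nat.cast_nonneg R
    linarith
  have he0 : 0 < ε' := by rw [hε']; positivity
  have he2 : ε' ≤ ε / 2 := by
    rw [hε', ← div_div]
    exact div_le_self (by positivity) hR1
  obtain ⟨k₀, hk₀⟩ := main 2 0 le_rfl (Pool.Agent.U710.XP.LD ζ σ (A + 4)) (Pool.Agent.U710.XP.LD_scls ζ hζ hζ1 (A + 4) σ hσ) κ hκ
    (B + 1) J (C + 1) K₁ (θ / 2) (by positivity) ε' he0 (by linarith)
  obtain ⟨N₀, hN₀⟩ := Pool.Agent.U710.XP.scales2 J C 1 ε hε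
  obtain ⟨y₀, hy₀⟩ := hdist (k₀ + N₀ + R + 2)
  filter_upwards [eventually_ge_atTop y₀] with y hy w hw1 hw2 z hz1 hz2 c hc T H hTJ hHJ x hx1 hx2
  refine ⟨fun a h => adm_card a _ x, ?_⟩
  obtain ⟨c1, c2, c3, c4, c5, c6, c7⟩ := hy₀ y w hy hw1 hw2
  obtain ⟨N, hN⟩ : ∃ N, N = S α β γ y := ⟨_, rfl⟩
  have hN' : ⌊Pool.Agent.U710.LE.ef α β γ y⌋₊ = N := by rw [hN]; rfl
  rw [hN'] at c3 c4 c5 c6 c7
  rw [← hN] at hz1 hz2 hc hTJ hHJ hx1 hx2 ⊢
  have hNN : N₀ ≤ N := by
    have h1 : Pool.Agent.U710.LE.dg N ≤ N := by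
      unfold Pool.Agent.U710.LE.dg
      have := Nat.log_lt_self 2 (show N ≠ 0 by omega)
      omega
    omega
  obtain ⟨s1, s2, s3, s4, s5, s6, s7, s8, s9⟩ := hN₀ N hNN
  obtain ⟨k, hk⟩ : ∃ k, k = Pool.Agent.U710.LE.dg N := ⟨_, rfl⟩
  rw [← hk] at c4 c5 c6 c7 s3 s4 s5 s6 s7 s8 s9
  have hw0 : (0 : ℝ) < w := by exact_mod_cast c1
  have hNk : N ≤ 2 ^ k := by rw [hk]; exact (Pool.Agent.U710.LE.lt_dg N).le
  have hRk : (R : ℤ) ≤ (2 : ℤ) ^ k := by
    have h1 : R ≤ 2 ^ k := (by omega : R ≤ k).trans (Nat.lt_pow_self (by norm_num)).le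
    exact_mod_cast h1
  have hz1' : θ / 2 * Real.log k ≤ z := by
    refine le_trans ?_ hz1
    have h1 : θ / 2 * Real.log k ≤ θ / 2 * (2 * Real.log (Real.log N)) := mul_le_mul_of_nonneg_left s4 (by positivity)
    linarith
  have hz2' : z ≤ K₁ * Real.log k := hz2.trans (mul_le_mul_of_nonneg_left s5 (Nat.cast_nonneg _))
  have hV : 0 < V z := Pool.Agent.H373R2.T7.Vz_pos z
  obtain ⟨Bad, hBad⟩ : ∃ Bad : ℤ → ℕ → Prop, ∀ i v, Bad i v ↔ ¬ (((range (T + 1) ×ˢ Icc 1 H).filter (fun t => ¬ (0 < Nv z t.2 (c + i) κ v →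
          |((Good t.1 x (Nv z t.2 (c + i) κ v)).card : ℝ) - (Adm t.1 (primorial z * t.2) x).card / (V z * (k * Real.log (2 : ℕ)))| ≤
            ε' * ((Adm t.1 (primorial z * t.2) x).card / (V z * (k * Real.log (2 : ℕ))))))).card : ℝ) ≤ ε' * ((T + 1) * H) :=
    ⟨_, fun _ _ => Iff.rfl⟩
  have hone : ∀ i ∈ Icc (-(R : ℤ)) R, (((Ioc (y - w) y).filter (fun m : ℕ => Bad i (S α β γ m))).card : ℝ) ≤ ε' * w := by
    intro i hi
    rw [mem_Icc] at hi
    have hci : |c + i| ≤ ((B + 1 : ℕ) : ℤ) * ((2 : ℕ) : ℤ) ^ k := by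
      have h1 : |i| ≤ R := abs_le.2 hi
      have h2 : (N : ℤ) ≤ (2 : ℤ) ^ k := by exact_mod_cast hNk
      have h3 : (B : ℤ) * N ≤ B * (2 : ℤ) ^ k := mul_le_mul_of_nonneg_left h2 (Nat.cast_nonneg _)
      push_cast
      calc |c + i| ≤ |c| + |i| := abs_add_le _ _
        _ ≤ B * (2 : ℤ) ^ k + (2 : ℤ) ^ k := by linarith
        _ = _ := by ring
    have h1 := (hk₀ k (by omega) (Pool.Agent.U710.XP.dist α β γ y w) c7 z hz1' hz2' (c + i) hci T H (s7 T hTJ) (s7 H hHJ) x
      (s8 x hx1) (s9 x hx2)).2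
    refine Pool.Agent.U710.XP.dist_count α β γ ζ σ (A + 4) k y w c2 c6 (Bad i) ε' (le_trans (le_of_eq ?_) h1)
    refine sum_congr rfl fun v _ => ?_
    by_cases hq : Bad i v
    · rw [if_pos hq, if_neg]
      rw [hBad] at hq
      convert hq
    · rw [if_neg hq, if_pos]
      rw [hBad, not_not] at hq
      convert hq
  have hsub : (Ioc (y - w) y).filter (fun m : ℕ => ¬ ∀ u : ℤ, |u - (c + κ * (S α β γ m : ℕ))| ≤ R →
      ((badPairs T H x z ε (Real.log N) u).card : ℝ) ≤ ε * ((T + 1) * H)) ⊆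
      (Icc (-(R : ℤ)) R).biUnion fun i => (Ioc (y - w) y).filter (fun m : ℕ => Bad i (S α β γ m)) := by
    intro m hm
    obtain ⟨hm1, hm2⟩ := mem_filter.1 hm
    push Not at hm2
    obtain ⟨u, g3, g4⟩ := hm2
    rw [mem_biUnion]
    refine ⟨u - (c + κ * (S α β γ m : ℕ)), mem_Icc.2 (abs_le.1 g3), mem_filter.2 ⟨hm1, ?_⟩⟩
    rw [hBad, not_le]
    have e1 : ∀ h : ℕ, Nv z h (c + (u - (c + κ * (S α β γ m : ℕ)))) κ (S α β γ m) = ((primorial z * h : ℕ) : ℤ) * u := by
      intro h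
      unfold Nv
      ring
    simp only [e1]
    have g5 : ε' * ((T + 1) * H) ≤ ε * (((T : ℝ) + 1) * H) := mul_le_mul_of_nonneg_right (by linarith) (by positivity)
    refine lt_of_le_of_lt g5 (lt_of_lt_of_le g4 (Nat.cast_le.2 (card_le_card fun t ht => ?_)))
    unfold badPairs at ht
    obtain ⟨ht1, ht2⟩ := mem_filter.1 ht
    refine mem_filter.2 ⟨ht1, fun hcon => ht2 fun hpos => ?_⟩
    have h5 := hcon hpos
    have h6 := s6 (Adm t.1 (primorial z * t.2) x).card (V z) (Nat.cast_nonneg _) hV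
      (Good t.1 x (((primorial z * t.2 : ℕ) : ℤ) * u)).card
    rw [pow_one, pow_one] at h6
    apply h6
    refine le_trans (by exact_mod_cast h5) (mul_le_mul_of_nonneg_right he2 ?_)
    have : (0 : ℝ) ≤ Real.log 2 := Real.log_nonneg (by norm_num)
    positivity
  calc _ ≤ (((Icc (-(R : ℤ)) R).biUnion fun i => (Ioc (y - w) y).filter (fun m : ℕ => Bad i (S α β γ m))).card : ℝ) :=
        Nat.cast_le.2 (card_le_card hsub)
    _ ≤ ∑ i ∈ Icc (-(R : ℤ)) R, (((Ioc (y - w) y).filter (fun m : ℕ => Bad i (S α β γ m))).card : ℝ) := by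
        exact_mod_cast card_biUnion_le
    _ ≤ ∑ _i ∈ Icc (-(R : ℤ)) R, ε' * w := sum_le_sum hone
    _ = (2 * R + 1) * ε' * w := by
        rw [sum_const, nsmul_eq_mul, Int.card_Icc]
        have : ((R : ℤ) + 1 - (-(R : ℤ))).toNat = 2 * R + 1 := by omega
        rw [this]
        push_cast
        ring
    _ = ε / 2 * w := by
        rw [hε']
        field_simp
    _ ≤ ε * w := mul_le_mul_of_nonneg_right (by linarith) hw0.le

end Pool.Agent.Results.MP_3aaefc_nt.SubexponentialLinearPolynomials
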